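import Mathlib

set_option autoImplicit false

namespace Pool.Agent.Results.MP_df70bc_co.Seven

open MvPolynomial

def t {K : Type} [Field K] [Fintype K] (x : K) : K :=
  x + ∑ k ∈ Finset.range (Fintype.card K - 1), x ^ k

def F {K : Type} [Field K] [Fintype K] : (n : ℕ) → (Fin (n + 1) → K) → K
  | 0, x => x 0
  | n + 1, x => t (F n (Fin.init x) ^ (Fintype.card K - 2) + x (Fin.last _) ^ (Fintype.card K - 2))

instance : Fact (Nat.Prime 7) := ⟨by norm_num⟩

def φ (u y : ZMod 7) : ZMod 7 := (u ^ 5 + y ^ 5) + ∑ k ∈ Finset.range 6, (u ^ 5 + y ^ 5) ^ k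

def w (k : ℕ) (y : ZMod 7) : ZMod 7 := if k = 0 then (if y = 0 then 1 else 0) else -y ^ (6 - k)

def T (a h : ZMod 7 → ZMod 7) (u : ZMod 7) : ZMod 7 := ∑ y, h (φ u y) * a y

def tb (l : List (ZMod 7)) (u : ZMod 7) : ZMod 7 := l.getD u.val 0

def S (n : ℕ) (a : Fin (n + 1) → ZMod 7 → ZMod 7) (h : ZMod 7 → ZMod 7) : ZMod 7 :=
  ∑ x : Fin (n + 1) → ZMod 7, h (F n x) * ∏ i, a i (x i)

theorem S0 (a : Fin 1 → ZMod 7 → ZMod 7) (h : ZMod 7 → ZMod 7) :
    S 0 a h = ∑ y, h y * a 0 y := by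
  rw [S, ← (Equiv.funUnique (Fin 1) (ZMod 7)).symm.sum_comp]
  simp [F]

theorem S1 (n : ℕ) (a : Fin (n + 2) → ZMod 7 → ZMod 7) (h : ZMod 7 → ZMod 7) :
    S (n + 1) a h = S n (Fin.init a) (T (a (Fin.last _)) h) := by
  rw [S, ← (Fin.snocEquiv (fun _ => ZMod 7)).sum_comp, Fintype.sum_prod_type, Finset.sum_comm, S]
  refine Finset.sum_congr rfl (fun x _ => ?_)
  rw [T, Finset.sum_mul]
  refine Finset.sum_congr rfl (fun y _ => ?_)
  have e : Fin.init ((Fin.snocEquiv fun _ => ZMod 7) (y, x)) = x := Fin.init_snoc _ _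
  rw [Fin.prod_univ_castSucc]
  simp only [F, e]
  simp only [Fin.snocEquiv_apply, Fin.snoc_last, Fin.snoc_castSucc, t, ZMod.card, φ, Fin.init]
  ring

theorem lat : (∀ u, Function.Bijective (φ u)) ∧ ∀ y, Function.Bijective (fun u => φ u y) := by
  decide +kernel

theorem van (n : ℕ) : ∀ (a : Fin (n + 1) → ZMod 7 → ZMod 7) (h : ZMod 7 → ZMod 7) (i : Fin (n + 1))
    (c : ZMod 7), (∀ y, a i y = c) → ∑ v, h v = 0 → S n a h = 0 := by
  induction n with
  | zero =>
    intro a h i c hc h0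
    rw [S0]
    simp only [show (0 : Fin 1) = i from Subsingleton.elim _ _, hc, ← Finset.sum_mul, h0, zero_mul]
  | succ n ih =>
    intro a h i c hc h0
    rw [S1]
    induction i using Fin.lastCases with
    | last =>
      have : T (a (Fin.last _)) h = fun _ => 0 := funext fun u => by
        simp only [T, hc, ← Finset.sum_mul]
        rw [(lat.1 u).sum_comp h, h0, zero_mul]
      simp [this, S]
    | cast i =>
      refine ih _ _ i c hc ?_
      simp only [T]
      rw [Finset.sum_comm]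
      refine Finset.sum_eq_zero (fun y _ => ?_)
      rw [← Finset.sum_mul, (lat.2 y).sum_comp h, h0, zero_mul]

theorem dual : ∀ j < 7, ∀ k < 7, ∑ y : ZMod 7, y ^ j * w k y = if j = k then 1 else 0 := by
  decide +kernel

theorem result :
    (∃ P : MvPolynomial (Fin 10) (ZMod 7), (∀ i, P.degreeOf i < 7) ∧ ∀ x, eval x P = F 9 x) ∧
    ∀ P : MvPolynomial (Fin 10) (ZMod 7), (∀ i, P.degreeOf i < 7) → (∀ x, eval x P = F 9 x) →
      P.totalDegree < 10 * (7 - 2) := by
  refine ⟨?_, fun P h1 h2 => ?_⟩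
  · obtain ⟨P, hP, e⟩ : F 9 ∈ (restrictDegree (Fin 10) (ZMod 7)
        (Fintype.card (ZMod 7) - 1)).map (evalₗ (ZMod 7) (Fin 10)) := by
      rw [map_restrict_dom_evalₗ]; trivial
    refine ⟨P, fun i => Nat.lt_succ_of_le (degreeOf_le_iff.2 fun m hm => ?_),
      fun x => congrFun e x⟩
    simpa using (mem_restrictDegree _ _ _).1 hP m hm i
  have bd : ∀ m ∈ P.support, ∀ i, m i < 7 := fun m hm i =>
    lt_of_le_of_lt (monomial_le_degreeOf i hm) (h1 i)
  have key : ∀ m ∈ P.support, coeff m P = S 9 (fun i => w (m i)) (fun u => u) := by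
    intro m hm
    simp only [S, ← h2, eval_eq', Finset.sum_mul, mul_assoc, ← Finset.prod_mul_distrib]
    rw [Finset.sum_comm, Finset.sum_eq_single m]
    · rw [← Finset.mul_sum, ← Fintype.piFinset_univ,
        ← Finset.prod_univ_sum (fun _ => Finset.univ) (fun i y => y ^ m i * w (m i) y)]
      simp [dual _ (bd m hm _) _ (bd m hm _)]
    · intro m' hm' ne
      obtain ⟨i, hi⟩ := DFunLike.ne_iff.1 ne
      rw [← Finset.mul_sum, ← Fintype.piFinset_univ,
        ← Finset.prod_univ_sum (fun _ => Finset.univ) (fun i y => y ^ m' i * w (m i) y),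
        Finset.prod_eq_zero (Finset.mem_univ i), mul_zero]
      rw [dual _ (bd m' hm' _) _ (bd m hm _), if_neg hi]
    · exact fun h => (h hm).elim
  refine (Finset.sup_lt_iff (by norm_num)).2 (fun m hm => ?_)
  by_contra hn
  refine mem_support_iff.1 hm ((key m hm).trans ?_)
  by_cases h6 : ∃ i, m i = 6
  · obtain ⟨i, hi⟩ := h6
    exact van 9 _ _ i (-1) (fun y => by simp [hi, w]) (by decide +kernel)
  · have h5 : ∀ i, m i ≤ 5 := fun i => by
      have := bd m hm i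
      have : m i ≠ 6 := fun e => h6 ⟨i, e⟩
      omega
    rw [Finsupp.sum_fintype _ _ (fun _ => rfl)] at hn
    have e : ∀ i, m i = 5 := fun i => by
      by_contra hi
      have := Finset.sum_lt_sum (s := Finset.univ) (fun j _ => h5 j)
        ⟨i, Finset.mem_univ _, lt_of_le_of_ne (h5 i) hi⟩
      exact hn (by simpa using this)
    have s0 : T (w 5) (fun u => u) = (tb [2, 2, 5, 2, 4, 2, 4]) := by decide +kernel
    have s1 : T (w 5) (tb [2, 2, 5, 2, 4, 2, 4]) = (tb [0, 2, 4, 1, 2, 5, 0]) := by decide +kernel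
    have s2 : T (w 5) (tb [0, 2, 4, 1, 2, 5, 0]) = (tb [2, 2, 2, 4, 2, 6, 3]) := by decide +kernel
    have s3 : T (w 5) (tb [2, 2, 2, 4, 2, 6, 3]) = (tb [0, 2, 1, 0, 4, 0, 0]) := by decide +kernel
    have s4 : T (w 5) (tb [0, 2, 1, 0, 4, 0, 0]) = (tb [2, 2, 1, 1, 6, 0, 2]) := by decide +kernel
    have s5 : T (w 5) (tb [2, 2, 1, 1, 6, 0, 2]) = (tb [0, 3, 4, 2, 2, 3, 0]) := by decide +kernel
    have s6 : T (w 5) (tb [0, 3, 4, 2, 2, 3, 0]) = (tb [3, 3, 0, 4, 1, 5, 5]) := by decide +kernel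
    have s7 : T (w 5) (tb [3, 3, 0, 4, 1, 5, 5]) = (tb [0, 6, 0, 6, 0, 2, 0]) := by decide +kernel
    have s8 : T (w 5) (tb [0, 6, 0, 6, 0, 2, 0]) = (tb [6, 6, 2, 0, 1, 1, 5]) := by decide +kernel
    simp only [e, S1, S0, Fin.init, s0, s1, s2, s3, s4, s5, s6, s7, s8]
    decide +kernel

end Pool.Agent.Results.MP_df70bc_co.Seven
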